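import Pool.Agent.W857.CC.Stm

/-! Project CC: finding the core in the nearly bipartite case. -/

set_option autoImplicit false

namespace Pool.Agent.W597.CC.NB5

open Finset Pool.Agent.W857.CC
open scoped Classical

variable {V : Type}

theorem eb_sum (G : SimpleGraph V) (A B : Finset V) : eb G A B = ∑ a ∈ A, nb G a B := by
  unfold eb nb
  simp only [Finset.card_filter]
  rw [Finset.sum_product]

theorem eb_comm (G : SimpleGraph V) (A B : Finset V) : eb G A B = eb G B A := by
  unfold eb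
  simp only [Finset.card_filter]
  rw [Finset.sum_product, Finset.sum_product_right]
  refine Finset.sum_congr rfl (fun a _ => Finset.sum_congr rfl (fun b _ => ?_))
  simp only [G.adj_comm]

theorem nb_union [DecidableEq V] (G : SimpleGraph V) (v : V) (P Q : Finset V) (h : Disjoint P Q) :
    nb G v (P ∪ Q) = nb G v P + nb G v Q := by
  unfold nb
  rw [Finset.filter_union, Finset.card_union_of_disjoint (Finset.disjoint_filter_filter h)]

theorem nb_insert_self [DecidableEq V] (G : SimpleGraph V) (v : V) (P : Finset V) :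
    nb G v (insert v P) = nb G v P := by
  unfold nb
  rw [Finset.filter_insert, if_neg (G.loopless.irrefl v)]

theorem nb_compl (G : SimpleGraph V) (v : V) (Q : Finset V) :
    nb G v Q + #(Q.filter fun y => ¬ G.Adj v y) = #Q := by
  unfold nb
  exact Finset.card_filter_add_card_filter_not _

theorem miss (G : SimpleGraph V) (P Q : Finset V) (c μ : ℝ)
    (hμ : (#P : ℝ) * #Q - eb G P Q ≤ μ) :
    (#(P.filter fun x => ¬ ((#(Q.filter fun y => ¬ G.Adj x y) : ℝ) ≤ c)) : ℝ) * c ≤ μ := by
  have h1 : (#P : ℝ) * #Q - eb G P Q = ∑ x ∈ P, (#(Q.filter fun y => ¬ G.Adj x y) : ℝ) := by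
    rw [eb_sum]
    push_cast
    rw [sub_eq_iff_eq_add, ← Finset.sum_add_distrib, ← nsmul_eq_mul, ← Finset.sum_const]
    refine Finset.sum_congr rfl (fun x _ => ?_)
    rw [← nb_compl G x Q]
    push_cast
    ring
  rw [h1] at hμ
  refine le_trans ?_ hμ
  rw [← nsmul_eq_mul, ← Finset.sum_const]
  refine le_trans (Finset.sum_le_sum ?_)
    (Finset.sum_le_sum_of_subset_of_nonneg (Finset.filter_subset _ _) (fun _ _ _ => by positivity))
  intro x hx
  exact (not_le.1 (Finset.mem_filter.1 hx).2).le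

theorem core_aux (n : ℕ) (G : SimpleGraph (Fin n)) (P Q : Finset (Fin n)) (hn : 1 ≤ n)
    (hd : Disjoint P Q)
    (hE : (1 / 4 - 101 / 10 ^ 8) * (n : ℝ) ^ 2 ≤ eb G P Q)
    (hP : ∀ v ∈ P, (499 / 10000 : ℝ) * n ≤ nb G v Q) (u v : Fin n) (hu : u ∈ P) (hv : v ∈ P)
    (huv : G.Adj u v) : ∃ (X Y : Finset (Fin n)) (u v : Fin n), Core G X Y u v := by
  have hn0 : (0 : ℝ) < n := by exact_mod_cast hn
  have hpq : (#P : ℝ) + #Q ≤ n := by
    have h1 := Finset.card_le_univ (P ∪ Q)
    rw [Finset.card_union_of_disjoint hd, Fintype.card_fin] at h1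
    exact_mod_cast h1
  have hp0 : (0 : ℝ) ≤ #P := by positivity
  have hq0 : (0 : ℝ) ≤ #Q := by positivity
  have hle : (eb G P Q : ℝ) ≤ (#P : ℝ) * #Q := by
    have h1 : eb G P Q ≤ #P * #Q := by
      unfold eb
      exact (Finset.card_filter_le _ _).trans (by rw [Finset.card_product])
    exact_mod_cast h1
  have hpqn : (#P : ℝ) * #Q ≤ (n : ℝ) ^ 2 / 4 := by nlinarith [sq_nonneg ((#P : ℝ) - #Q)]
  have hp : (49 / 100 : ℝ) * n ≤ #P := by
    by_contra hcon
    push Not at hcon
    have h2 : (#Q : ℝ) ≤ n - #P := by linarith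
    have h3 : (#P : ℝ) * #Q ≤ #P * (n - #P) := mul_le_mul_of_nonneg_left h2 hp0
    have h4 : 0 ≤ ((49 / 100 : ℝ) * n - #P) * ((51 / 100 : ℝ) * n - #P) :=
      mul_nonneg (by linarith) (by linarith)
    nlinarith
  have hq : (49 / 100 : ℝ) * n ≤ #Q := by
    by_contra hcon
    push Not at hcon
    have h2 : (#P : ℝ) ≤ n - #Q := by linarith
    have h3 : (#P : ℝ) * #Q ≤ (n - #Q) * #Q := mul_le_mul_of_nonneg_right h2 hq0
    have h4 : 0 ≤ ((49 / 100 : ℝ) * n - #Q) * ((51 / 100 : ℝ) * n - #Q) :=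
      mul_nonneg (by linarith) (by linarith)
    nlinarith
  have hμ : (#P : ℝ) * #Q - eb G P Q ≤ 101 / 10 ^ 8 * (n : ℝ) ^ 2 := by nlinarith
  have hμ' : (#Q : ℝ) * #P - eb G Q P ≤ 101 / 10 ^ 8 * (n : ℝ) ^ 2 := by
    rw [eb_comm, mul_comm]; exact hμ
  have hm1 := miss G P Q ((n : ℝ) / 100) _ hμ
  have hm2 := miss G Q P ((n : ℝ) / 100) _ hμ'
  set X := P.filter (fun x => (#(Q.filter fun y => ¬ G.Adj x y) : ℝ) ≤ (n : ℝ) / 100) with hX
  set Y := Q.filter (fun x => (#(P.filter fun y => ¬ G.Adj x y) : ℝ) ≤ (n : ℝ) / 100) with hY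
  have hsmall : ∀ t : ℝ, t * ((n : ℝ) / 100) ≤ 101 / 10 ^ 8 * (n : ℝ) ^ 2 →
      t ≤ 101 / 10 ^ 6 * n := by
    intro t ht
    have h1 : t * (n : ℝ) ≤ (101 / 10 ^ 6 * n) * n := by nlinarith
    exact le_of_mul_le_mul_right h1 hn0
  have hX1 : (#X : ℝ) + #(P.filter fun x => ¬ ((#(Q.filter fun y => ¬ G.Adj x y) : ℝ) ≤
      (n : ℝ) / 100)) = #P := by
    exact_mod_cast Finset.card_filter_add_card_filter_not (s := P)
      (fun x => (#(Q.filter fun y => ¬ G.Adj x y) : ℝ) ≤ (n : ℝ) / 100)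
  have hY1 : (#Y : ℝ) + #(Q.filter fun x => ¬ ((#(P.filter fun y => ¬ G.Adj x y) : ℝ) ≤
      (n : ℝ) / 100)) = #Q := by
    exact_mod_cast Finset.card_filter_add_card_filter_not (s := Q)
      (fun x => (#(P.filter fun y => ¬ G.Adj x y) : ℝ) ≤ (n : ℝ) / 100)
  have hm1' := hsmall _ hm1
  have hm2' := hsmall _ hm2
  have hXP : X ⊆ P := Finset.filter_subset _ _
  have hYQ : Y ⊆ Q := Finset.filter_subset _ _
  have hnb : ∀ w ∈ P, (n : ℝ) / 50 ≤ nb G w Y := by
    intro w hw
    have h1 := hP w hw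
    have h2 : nb G w Q ≤ nb G w Y + #(Q.filter fun x =>
        ¬ ((#(P.filter fun y => ¬ G.Adj x y) : ℝ) ≤ (n : ℝ) / 100)) := by
      unfold nb
      have h3 : (Q.filter fun y => G.Adj w y) ⊆ (Y.filter fun y => G.Adj w y) ∪
          (Q.filter fun x => ¬ ((#(P.filter fun y => ¬ G.Adj x y) : ℝ) ≤ (n : ℝ) / 100)) := by
        intro y hy
        rw [Finset.mem_filter] at hy
        rw [Finset.mem_union]
        by_cases h : (#(P.filter fun x => ¬ G.Adj y x) : ℝ) ≤ (n : ℝ) / 100
        · exact Or.inl (Finset.mem_filter.2 ⟨Finset.mem_filter.2 ⟨hy.1, h⟩, hy.2⟩)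
        · exact Or.inr (Finset.mem_filter.2 ⟨hy.1, h⟩)
      exact (Finset.card_le_card h3).trans (Finset.card_union_le _ _)
    have h4 : (nb G w Q : ℝ) ≤ nb G w Y + #(Q.filter fun x =>
        ¬ ((#(P.filter fun y => ¬ G.Adj x y) : ℝ) ≤ (n : ℝ) / 100)) := by exact_mod_cast h2
    linarith
  refine ⟨X, Y, u, v, ?_, ?_, ?_, ?_, ?_, huv, ?_, ?_, hnb u hu, hnb v hv⟩
  · exact Finset.disjoint_of_subset_left hXP (Finset.disjoint_of_subset_right hYQ hd)
  · linarith
  · linarith
  · intro x hx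
    rw [hX, Finset.mem_filter] at hx
    refine le_trans ?_ hx.2
    exact_mod_cast Finset.card_le_card (Finset.filter_subset_filter _ hYQ)
  · intro y hy
    rw [hY, Finset.mem_filter] at hy
    refine le_trans ?_ hy.2
    have h1 : (X.filter fun x => ¬ G.Adj x y) ⊆ (P.filter fun x => ¬ G.Adj y x) := by
      intro x hx
      rw [Finset.mem_filter] at hx ⊢
      exact ⟨hXP hx.1, fun h => hx.2 h.symm⟩
    exact_mod_cast Finset.card_le_card h1
  · exact fun h => Finset.disjoint_left.1 hd hu (hYQ h)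
  · exact fun h => Finset.disjoint_left.1 hd hv (hYQ h)

theorem main : S_NB5 := by
  intro n G A W hn hA hW hdeg hbip
  have hn0 : (0 : ℝ) < n := by exact_mod_cast hn
  obtain ⟨P, hPW, hmax⟩ := Finset.exists_max_image W.powerset (fun P => eb G P (W \ P))
    ⟨∅, Finset.empty_mem_powerset W⟩
  rw [Finset.mem_powerset] at hPW
  set Q := W \ P with hQ
  have hd : Disjoint P Q := Finset.disjoint_sdiff
  have hPQ : P ∪ Q = W := Finset.union_sdiff_of_subset hPW
  have hWn : #W ≤ n := by
    have := Finset.card_le_univ W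
    rwa [Fintype.card_fin] at this
  -- the cut is large
  have hcut : eb G A Aᶜ ≤ eb G P Q + (n - #W) * n := by
    have h1 := hmax (A ∩ W) (Finset.mem_powerset.2 Finset.inter_subset_right)
    have h2 : eb G A Aᶜ ≤ eb G (A ∩ W) (W \ (A ∩ W)) + (n - #W) * n := by
      have h3 : ((A ×ˢ Aᶜ).filter fun p => G.Adj p.1 p.2) ⊆
          (((A ∩ W) ×ˢ (W \ (A ∩ W))).filter fun p => G.Adj p.1 p.2) ∪
          ((A \ W) ×ˢ univ ∪ univ ×ˢ (Aᶜ \ W)) := by
        rintro ⟨a, b⟩ hab
        simp only [mem_filter, mem_product, mem_compl, mem_union, mem_inter, mem_sdiff,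
          mem_univ, and_true, true_and] at hab ⊢
        tauto
      have h4 : #(A \ W) + #(Aᶜ \ W) = n - #W := by
        rw [← Finset.card_union_of_disjoint]
        · have h5 : A \ W ∪ Aᶜ \ W = Wᶜ := by
            ext x
            simp only [mem_union, mem_sdiff, mem_compl]
            tauto
          rw [h5, Finset.card_compl, Fintype.card_fin]
        · rw [Finset.disjoint_left]
          intro x hx hx'
          simp only [mem_sdiff, mem_compl] at hx hx'
          tauto
      have h6 := (Finset.card_le_card h3).trans (Finset.card_union_le _ _)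
      have h7 := Finset.card_union_le ((A \ W) ×ˢ (univ : Finset (Fin n)))
        ((univ : Finset (Fin n)) ×ˢ (Aᶜ \ W))
      rw [Finset.card_product, Finset.card_product, Finset.card_univ, Fintype.card_fin] at h7
      unfold eb
      rw [← h4]
      nlinarith
    omega
  have hE : (1 / 4 - 101 / 10 ^ 8) * (n : ℝ) ^ 2 ≤ eb G P Q := by
    have h1 : (eb G A Aᶜ : ℝ) ≤ eb G P Q + ((n : ℝ) - #W) * n := by
      have h2 : ((n - #W : ℕ) : ℝ) = (n : ℝ) - #W := Nat.cast_sub hWn
      rw [← h2]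
      exact_mod_cast hcut
    have h3 : ((n : ℝ) - #W) * n ≤ (1 / 10 ^ 6 * n) * n :=
      mul_le_mul_of_nonneg_right (by linarith) hn0.le
    nlinarith
  have hnbP : ∀ v ∈ P, nb G v P ≤ nb G v Q := by
    intro v hv
    have hvQ : v ∉ Q := Finset.disjoint_left.1 hd hv
    have h1 := hmax (P.erase v) (Finset.mem_powerset.2 ((Finset.erase_subset _ _).trans hPW))
    have h2 : W \ P.erase v = insert v Q := by
      ext x
      simp only [mem_sdiff, mem_erase, mem_insert, hQ]
      constructor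
      · rintro ⟨ha, hb⟩
        by_cases hx : x = v
        · exact Or.inl hx
        · exact Or.inr ⟨ha, fun h => hb ⟨hx, h⟩⟩
      · rintro (rfl | ⟨ha, hb⟩)
        · exact ⟨hPW hv, fun h => h.1 rfl⟩
        · exact ⟨ha, fun h => hb h.2⟩
    have h3 : eb G P Q = nb G v Q + eb G (P.erase v) Q := by
      conv_lhs => rw [← Finset.insert_erase hv]
      rw [eb_sum, Finset.sum_insert (Finset.notMem_erase v P), ← eb_sum]
    have h4 : eb G (P.erase v) (insert v Q) = nb G v (P.erase v) + eb G (P.erase v) Q := by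
      rw [eb_comm, eb_sum, Finset.sum_insert hvQ, ← eb_sum, eb_comm]
    have h5 : nb G v P = nb G v (P.erase v) := by
      conv_lhs => rw [← Finset.insert_erase hv]
      rw [nb_insert_self]
    simp only [h2] at h1
    rw [h4] at h1
    rw [h3] at h1
    omega
  have hnbQ : ∀ v ∈ Q, nb G v Q ≤ nb G v P := by
    intro v hv
    have hvP : v ∉ P := Finset.disjoint_right.1 hd hv
    have hvW : v ∈ W := (Finset.mem_sdiff.1 hv).1
    have h1 := hmax (insert v P) (Finset.mem_powerset.2 (Finset.insert_subset hvW hPW))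
    have h2 : W \ insert v P = Q.erase v := by
      ext x
      simp only [mem_sdiff, mem_erase, mem_insert, hQ]
      tauto
    have h3 : eb G P Q = nb G v P + eb G P (Q.erase v) := by
      rw [eb_comm G P Q, eb_comm G P (Q.erase v)]
      conv_lhs => rw [← Finset.insert_erase hv]
      rw [eb_sum, Finset.sum_insert (Finset.notMem_erase v Q), ← eb_sum]
    have h4 : eb G (insert v P) (Q.erase v) = nb G v (Q.erase v) + eb G P (Q.erase v) := by
      rw [eb_sum, Finset.sum_insert hvP, ← eb_sum]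
    have h5 : nb G v Q = nb G v (Q.erase v) := by
      conv_lhs => rw [← Finset.insert_erase hv]
      rw [nb_insert_self]
    simp only [h2] at h1
    rw [h4] at h1
    rw [h3] at h1
    omega
  have hdegW : ∀ v ∈ W, (998 / 10000 : ℝ) * n ≤ nb G v P + nb G v Q := by
    intro v hv
    have h1 := hdeg v hv
    have h2 : nb G v W = nb G v P + nb G v Q := by
      rw [← nb_union G v P Q hd, hPQ]
    rw [h2] at h1
    push_cast at h1
    linarith
  rcases hbip P Q hd hPQ with ⟨a, ha, a', ha', haa⟩ | ⟨b, hb, b', hb', hbb⟩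
  · refine core_aux n G P Q hn hd hE ?_ a a' ha ha' haa
    intro v hv
    have h1 := hdegW v (hPW hv)
    have h2 : (nb G v P : ℝ) ≤ nb G v Q := by exact_mod_cast hnbP v hv
    linarith
  · refine core_aux n G Q P hn hd.symm ?_ ?_ b b' hb hb' hbb
    · rw [eb_comm]; exact hE
    · intro v hv
      have h1 := hdegW v ((Finset.mem_sdiff.1 hv).1)
      have h2 : (nb G v Q : ℝ) ≤ nb G v P := by exact_mod_cast hnbQ v hv
      linarith

end Pool.Agent.W597.CC.NB5
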